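import Pool.Agent.H88.PC.Cliff

/-!
# The centralizer of a semisimple group of matrices
-/

set_option autoImplicit false

open Matrix

namespace Pool.Agent.H88.PC

open Pool.Agent.H88.PW Pool.Agent.H88.PA

variable {n : ℕ}

/-- The algebra of the matrices which commute with the group. -/
def cent (S : Subgroup (GL (Fin n) ℂ)) : Subalgebra ℂ (Matrix (Fin n) (Fin n) ℂ) :=
  Subalgebra.centralizer ℂ {x | ∃ g ∈ S, x = (g : Matrix (Fin n) (Fin n) ℂ)}

theorem mem_cent {S : Subgroup (GL (Fin n) ℂ)} {x : Matrix (Fin n) (Fin n) ℂ} :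
    x ∈ cent S ↔ ∀ g ∈ S, (g : Matrix (Fin n) (Fin n) ℂ) * x = x * g := by
  unfold cent
  rw [Subalgebra.mem_centralizer_iff]
  constructor
  · intro h g hg
    exact h _ ⟨g, hg, rfl⟩
  · rintro h _ ⟨g, hg, rfl⟩
    exact h g hg

/-- The endomorphism of `ℂⁿ` given by a matrix. -/
noncomputable def act : Matrix (Fin n) (Fin n) ℂ ≃ₐ[ℂ] Module.End ℂ (Fin n → ℂ) :=
  Matrix.toLinAlgEquiv'

theorem act_apply (x : Matrix (Fin n) (Fin n) ℂ) (v : Fin n → ℂ) : act x v = x *ᵥ v :=
  Matrix.toLinAlgEquiv'_apply x v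

/-- The algebra of endomorphisms generated by the group. -/
noncomputable def alg (S : Subgroup (GL (Fin n) ℂ)) : Subalgebra ℂ (Module.End ℂ (Fin n → ℂ)) :=
  Algebra.adjoin ℂ {x | ∃ g ∈ S, x = act (g : Matrix (Fin n) (Fin n) ℂ)}

theorem act_mem_alg {S : Subgroup (GL (Fin n) ℂ)} {g : GL (Fin n) ℂ} (hg : g ∈ S) :
    act (g : Matrix (Fin n) (Fin n) ℂ) ∈ alg S := Algebra.subset_adjoin ⟨g, hg, rfl⟩

/-- An invariant subspace is stable under the algebra generated by the group. -/
theorem alg_stable {S : Subgroup (GL (Fin n) ℂ)} {U : Submodule ℂ (Fin n → ℂ)} (hU : Inv S U)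
    {x : Module.End ℂ (Fin n → ℂ)} (hx : x ∈ alg S) : ∀ v ∈ U, x v ∈ U := by
  induction hx using Algebra.adjoin_induction with
  | mem x hx =>
    obtain ⟨g, hg, rfl⟩ := hx
    intro v hv
    rw [act_apply]
    exact hU g hg v hv
  | algebraMap r =>
    intro v hv
    rw [Module.algebraMap_end_apply]
    exact U.smul_mem r hv
  | add x y _ _ hx hy =>
    intro v hv
    rw [LinearMap.add_apply]
    exact U.add_mem (hx v hv) (hy v hv)
  | mul x y _ _ hx hy =>
    intro v hv
    exact hx _ (hy v hv)

/-- The submodule over a subalgebra given by a stable subspace. -/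
def sub (R : Subalgebra ℂ (Module.End ℂ (Fin n → ℂ))) (U : Submodule ℂ (Fin n → ℂ))
    (h : ∀ x ∈ R, ∀ v ∈ U, x v ∈ U) : Submodule R (Fin n → ℂ) where
  carrier := U
  add_mem' := U.add_mem
  zero_mem' := U.zero_mem
  smul_mem' := fun x _ hv => h x.1 x.2 _ hv

theorem semi_module {S : Subgroup (GL (Fin n) ℂ)} (hS : Semi S) :
    IsSemisimpleModule (alg S) (Fin n → ℂ) := by
  refine (isSemisimpleModule_iff _ _).2 ⟨fun U => ?_⟩
  obtain ⟨W, hW, hc⟩ := hS (U.restrictScalars ℂ) (by
    intro g hg v hv
    have h1 := U.smul_mem (⟨act (g : Matrix (Fin n) (Fin n) ℂ), act_mem_alg hg⟩ : alg S) hv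
    have h2 : (⟨act (g : Matrix (Fin n) (Fin n) ℂ), act_mem_alg hg⟩ : alg S) • v =
        (g : Matrix (Fin n) (Fin n) ℂ) *ᵥ v := act_apply _ v
    rw [h2] at h1
    exact h1)
  refine ⟨sub (alg S) W fun x hx => alg_stable hW hx, ?_⟩
  rw [isCompl_iff, Submodule.disjoint_def, codisjoint_iff, eq_top_iff]
  refine ⟨fun x hx hx' => Submodule.disjoint_def.1 hc.1 x hx hx', fun x _ => ?_⟩
  have h1 : x ∈ U.restrictScalars ℂ ⊔ W := by
    rw [hc.sup_eq_top]
    exact Submodule.mem_top
  obtain ⟨u, hu, w, hw, rfl⟩ := Submodule.mem_sup.1 h1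
  exact Submodule.add_mem_sup (S := U) (T := sub (alg S) W fun x hx => alg_stable hW hx) hu hw

/-- The commutant of a semisimple group of matrices is semisimple. -/
theorem cent_semisimple {S : Subgroup (GL (Fin n) ℂ)} (hS : Semi S) :
    IsSemisimpleRing (cent S) := by
  have h1 := semi_module hS
  have hfin : Module.Finite (alg S) (Fin n → ℂ) :=
    Module.Finite.of_restrictScalars_finite ℂ (alg S) (Fin n → ℂ)
  have h2 : IsSemisimpleRing (Module.End (alg S) (Fin n → ℂ)) := 
    IsSemisimpleRing.moduleEnd (alg S) (Fin n → ℂ)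
  let f : Module.End (alg S) (Fin n → ℂ) →+* cent S :=
    { toFun := fun φ => ⟨act.symm (φ.restrictScalars ℂ), by
        rw [mem_cent]
        intro g hg
        apply act.injective
        rw [map_mul, map_mul, AlgEquiv.apply_symm_apply]
        refine LinearMap.ext fun v => ?_
        have h3 := φ.map_smul (⟨act (g : Matrix (Fin n) (Fin n) ℂ), act_mem_alg hg⟩ : alg S) v
        exact h3.symm⟩
      map_one' := by
        apply Subtype.ext
        exact map_one act.symm
      map_mul' := fun φ ψ => by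
        apply Subtype.ext
        exact map_mul act.symm (φ.restrictScalars ℂ) (ψ.restrictScalars ℂ)
      map_zero' := by
        apply Subtype.ext
        exact map_zero act.symm
      map_add' := fun φ ψ => by
        apply Subtype.ext
        exact map_add act.symm (φ.restrictScalars ℂ) (ψ.restrictScalars ℂ) }
  have hf : Function.Bijective f := by
    constructor
    · intro φ ψ h
      have h3 := act.symm.injective (congrArg Subtype.val h)
      refine LinearMap.ext fun v => ?_
      exact LinearMap.congr_fun h3 v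
    · rintro ⟨x, hx⟩
      have hc : ∀ y ∈ alg S, ∀ v, act x (y v) = y (act x v) := by
        intro y hy
        induction hy using Algebra.adjoin_induction with
        | mem y hy =>
          obtain ⟨g, hg, rfl⟩ := hy
          intro v
          have h3 := congrArg (fun z => act z v) (mem_cent.1 hx g hg)
          simp only [map_mul] at h3
          exact h3.symm
        | algebraMap r =>
          intro v
          rw [Module.algebraMap_end_apply, Module.algebraMap_end_apply, map_smul]
        | add y z _ _ hy hz =>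
          intro v
          rw [LinearMap.add_apply, LinearMap.add_apply, map_add, hy, hz]
        | mul y z _ _ hy hz =>
          intro v
          rw [Module.End.mul_apply, Module.End.mul_apply, hy, hz]
      refine ⟨{ toFun := act x, map_add' := map_add _, map_smul' := fun y v => hc y.1 y.2 v }, ?_⟩
      apply Subtype.ext
      exact act.symm_apply_apply x
  exact (RingEquiv.ofBijective f hf).isSemisimpleRing

/-- The units of the commutant form the centralizer. -/
theorem mem_cent_iff {S : Subgroup (GL (Fin n) ℂ)} {g : GL (Fin n) ℂ} :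
    g ∈ Subgroup.centralizer (S : Set (GL (Fin n) ℂ)) ↔
      (g : Matrix (Fin n) (Fin n) ℂ) ∈ cent S := by
  rw [mem_cent, Subgroup.mem_centralizer_iff]
  constructor
  · intro h s hs
    rw [← Units.val_mul, ← Units.val_mul, h s hs]
  · intro h s hs
    exact Units.ext (by rw [Units.val_mul, Units.val_mul, h s hs])

/-- A subalgebra of the algebra of matrices is spanned by its units. -/
theorem exists_unit (x : Matrix (Fin n) (Fin n) ℂ) :
    ∃ (c : ℂ) (g : GL (Fin n) ℂ), (g : Matrix (Fin n) (Fin n) ℂ) = x + algebraMap ℂ _ c := by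
  have h1 : (spectrum ℂ (-x)).Finite := by
    have h2 := Module.End.finite_spectrum (act (-x))
    rwa [AlgEquiv.spectrum_eq] at h2
  obtain ⟨c, hc⟩ := h1.infinite_compl.nonempty
  have h2 : IsUnit (algebraMap ℂ (Matrix (Fin n) (Fin n) ℂ) c - -x) := spectrum.notMem_iff.1 hc
  rw [sub_neg_eq_add, add_comm] at h2
  exact ⟨c, h2.unit, rfl⟩

/-- The centralizer of a group which acts semisimply acts semisimply. -/
theorem semi_centralizer {S : Subgroup (GL (Fin n) ℂ)} (hS : Semi S) :
    Semi (Subgroup.centralizer (S : Set (GL (Fin n) ℂ))) := by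
  have h1 := cent_semisimple hS
  let R : Subalgebra ℂ (Module.End ℂ (Fin n → ℂ)) := (cent S).map (act (n := n)).toAlgHom
  have h2 : IsSemisimpleRing R :=
    (AlgEquiv.subalgebraMap (act (n := n)) (cent S)).toRingEquiv.isSemisimpleRing
  have h3 : IsSemisimpleModule R (Fin n → ℂ) := inferInstance
  intro U hU
  have hst : ∀ x ∈ R, ∀ v ∈ U, x v ∈ U := by
    rintro _ ⟨x, hx, rfl⟩ v hv
    obtain ⟨c, g, hg⟩ := exists_unit x
    have h3 : g ∈ Subgroup.centralizer (S : Set (GL (Fin n) ℂ)) := by
      rw [mem_cent_iff, hg]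
      exact (cent S).add_mem hx ((cent S).algebraMap_mem c)
    have h4 := hU g h3 v hv
    have h5 : act x v = (g : Matrix (Fin n) (Fin n) ℂ) *ᵥ v - c • v := by
      rw [act_apply, hg, Matrix.add_mulVec, Algebra.algebraMap_eq_smul_one, Matrix.smul_mulVec,
        Matrix.one_mulVec, add_sub_cancel_right]
    have h6 : act x v ∈ U := by
      rw [h5]
      exact U.sub_mem h4 (U.smul_mem c hv)
    exact h6
  obtain ⟨W, hW⟩ := ((isSemisimpleModule_iff _ _).1 h3).exists_isCompl (sub R U hst)
  refine ⟨W.restrictScalars ℂ, fun g hg v hv => ?_, ?_⟩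
  · have h3 : act (g : Matrix (Fin n) (Fin n) ℂ) ∈ R := ⟨g, mem_cent_iff.1 hg, rfl⟩
    have h4 := W.smul_mem (⟨_, h3⟩ : R) hv
    have h5 : (⟨act (g : Matrix (Fin n) (Fin n) ℂ), h3⟩ : R) • v =
        (g : Matrix (Fin n) (Fin n) ℂ) *ᵥ v := act_apply _ v
    rw [h5] at h4
    exact h4
  · rw [isCompl_iff, Submodule.disjoint_def, codisjoint_iff, eq_top_iff]
    refine ⟨fun x hx hx' => Submodule.disjoint_def.1 hW.1 x hx hx', fun x _ => ?_⟩
    have h3 : x ∈ sub R U hst ⊔ W := by
      rw [hW.sup_eq_top]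
      exact Submodule.mem_top
    obtain ⟨u, hu, w, hw, rfl⟩ := Submodule.mem_sup.1 h3
    exact Submodule.add_mem_sup (S := U) (T := W.restrictScalars ℂ) hu hw

end Pool.Agent.H88.PC
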