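import Pool.Agent.H88.PA.Eig

/-!
# Restriction of a semisimple representation to a normal subgroup
-/

set_option autoImplicit false

open Matrix

namespace Pool.Agent.H88.PC

open Pool.Agent.H88.PW Pool.Agent.H88.PA

variable {n : ℕ}

theorem Inv.inf {S : Subgroup (GL (Fin n) ℂ)} {U W : Submodule ℂ (Fin n → ℂ)} (hU : Inv S U)
    (hW : Inv S W) : Inv S (U ⊓ W) := fun g hg v hv => ⟨hU g hg v hv.1, hW g hg v hv.2⟩

theorem Inv.sup {S : Subgroup (GL (Fin n) ℂ)} {U W : Submodule ℂ (Fin n → ℂ)} (hU : Inv S U)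
    (hW : Inv S W) : Inv S (U ⊔ W) := by
  intro g hg v hv
  obtain ⟨u, hu, w, hw, rfl⟩ := Submodule.mem_sup.1 hv
  rw [Matrix.mulVec_add]
  exact Submodule.add_mem_sup (hU g hg u hu) (hW g hg w hw)

theorem inv_sSup {S : Subgroup (GL (Fin n) ℂ)} {F : Set (Submodule ℂ (Fin n → ℂ))}
    (hF : ∀ U ∈ F, ∀ g ∈ S, ∃ U' ∈ F, ∀ v ∈ U, (g : Matrix (Fin n) (Fin n) ℂ) *ᵥ v ∈ U') :
    Inv S (sSup F) := by
  intro g hg
  have h1 : sSup F ≤ (sSup F).comap (Matrix.mulVecLin (g : Matrix (Fin n) (Fin n) ℂ)) := by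
    refine sSup_le fun U hU v hv => ?_
    obtain ⟨U', hU', h⟩ := hF U hU g hg
    exact le_sSup hU' (h v hv)
  exact fun v hv => h1 hv

/-- A minimal nonzero invariant subspace. -/
def Min (K : Subgroup (GL (Fin n) ℂ)) (M : Submodule ℂ (Fin n → ℂ)) : Prop :=
  Inv K M ∧ M ≠ ⊥ ∧ ∀ W ≤ M, Inv K W → W = ⊥ ∨ W = M

theorem exists_min {K : Subgroup (GL (Fin n) ℂ)} {U : Submodule ℂ (Fin n → ℂ)} (hU : Inv K U)
    (h0 : U ≠ ⊥) : ∃ M ≤ U, Min K M := by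
  have hwf : WellFounded (fun I J : Submodule ℂ (Fin n → ℂ) => I < J) := wellFounded_lt
  obtain ⟨M, ⟨h1, h2, h3⟩, h4⟩ := hwf.has_min {M | M ≤ U ∧ Inv K M ∧ M ≠ ⊥} ⟨U, le_rfl, hU, h0⟩
  refine ⟨M, h1, h2, h3, fun W hW hWi => ?_⟩
  by_contra hn
  push Not at hn
  exact h4 W ⟨hW.trans h1, hWi, hn.1⟩ (lt_of_le_of_ne hW hn.2)

theorem semi_of_sSup {K : Subgroup (GL (Fin n) ℂ)} (h : sSup {M | Min K M} = ⊤) : Semi K := by
  intro U hU
  have hwf : WellFounded (fun I J : Submodule ℂ (Fin n → ℂ) => J < I) := wellFounded_gt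
  obtain ⟨W, ⟨h1, h2⟩, h3⟩ := hwf.has_min {W | Inv K W ∧ U ⊓ W = ⊥}
    ⟨⊥, fun g _ v hv => by
      rw [Submodule.mem_bot] at *
      rw [hv, Matrix.mulVec_zero], inf_bot_eq _⟩
  refine ⟨W, h1, ?_⟩
  rw [isCompl_iff, disjoint_iff, codisjoint_iff]
  refine ⟨h2, ?_⟩
  by_contra hne
  have h4 : ∃ M, Min K M ∧ ¬ M ≤ U ⊔ W := by
    by_contra hn
    push Not at hn
    exact hne (top_le_iff.1 (h ▸ sSup_le fun M hM => hn M hM))
  obtain ⟨M, ⟨hM1, hM2, hM3⟩, hM4⟩ := h4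
  have h5 : M ⊓ (U ⊔ W) = ⊥ := by
    rcases hM3 (M ⊓ (U ⊔ W)) inf_le_left (Inv.inf hM1 (Inv.sup hU h1)) with h6 | h6
    · exact h6
    · exact absurd (inf_eq_left.1 h6) hM4
  have h6 : U ⊓ (W ⊔ M) = ⊥ := by
    rw [eq_bot_iff]
    rintro x ⟨hx1, hx2⟩
    obtain ⟨w, hw, m, hm, rfl⟩ := Submodule.mem_sup.1 hx2
    have h7 : m ∈ M ⊓ (U ⊔ W) := by
      refine ⟨hm, ?_⟩
      have h8 : m = (w + m) + -w := by abel
      rw [h8]
      exact Submodule.add_mem_sup hx1 (W.neg_mem hw)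
    rw [h5, Submodule.mem_bot] at h7
    subst h7
    rw [add_zero] at *
    rw [← h2]
    exact ⟨hx1, hw⟩
  refine h3 (W ⊔ M) ⟨Inv.sup h1 hM1, h6⟩ (lt_of_le_of_ne le_sup_left fun h7 => ?_)
  have h8 : M ≤ W := by
    rw [h7]
    exact le_sup_right
  exact hM4 (h8.trans le_sup_right)

/-- **Clifford's theorem**: a normal subgroup of a group which acts semisimply acts
semisimply. -/
theorem clifford {S K : Subgroup (GL (Fin n) ℂ)} (hS : Semi S) (hK : K ≤ S)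
    (hN : ∀ s ∈ S, ∀ k ∈ K, s * k * s⁻¹ ∈ K) : Semi K := by
  refine semi_of_sSup ?_
  have h1 : Inv S (sSup {M | Min K M}) := by
    refine inv_sSup ?_
    rintro M ⟨hM1, hM2, hM3⟩ g hg
    let e : (Fin n → ℂ) ≃ₗ[ℂ] (Fin n → ℂ) := LinearEquiv.ofLinearMap
      (Matrix.mulVecLin (g : Matrix (Fin n) (Fin n) ℂ))
      (Matrix.mulVecLin ((g⁻¹ : GL (Fin n) ℂ) : Matrix (Fin n) (Fin n) ℂ))
      (LinearMap.ext fun v => mulVec_inv g v) (LinearMap.ext fun v => inv_mulVec g v)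
    have he : ∀ v, e v = (g : Matrix (Fin n) (Fin n) ℂ) *ᵥ v := fun _ => rfl
    have he' : ∀ v, e.symm v = ((g⁻¹ : GL (Fin n) ℂ) : Matrix (Fin n) (Fin n) ℂ) *ᵥ v :=
      fun _ => rfl
    have key : ∀ W : Submodule ℂ (Fin n → ℂ), Inv K W → ∀ (h : GL (Fin n) ℂ), h ∈ S →
        ∀ (f : (Fin n → ℂ) ≃ₗ[ℂ] (Fin n → ℂ)), (∀ v, f v = (h : Matrix (Fin n) (Fin n) ℂ) *ᵥ v) →
        Inv K (W.map f.toLinearMap) := by
      intro W hW h hh f hf k hk v hv
      obtain ⟨w, hw, rfl⟩ := hv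
      have h2 : h⁻¹ * k * h ∈ K := by
        have h3 := hN h⁻¹ (S.inv_mem hh) k hk
        rwa [inv_inv] at h3
      refine ⟨((h⁻¹ * k * h : GL (Fin n) ℂ) : Matrix (Fin n) (Fin n) ℂ) *ᵥ w, hW _ h2 w hw, ?_⟩
      have h4 : f ((( h⁻¹ * k * h : GL (Fin n) ℂ) : Matrix (Fin n) (Fin n) ℂ) *ᵥ w) =
          (k : Matrix (Fin n) (Fin n) ℂ) *ᵥ f w := by
        rw [hf, hf, Matrix.mulVec_mulVec, Matrix.mulVec_mulVec, ← Units.val_mul, ← Units.val_mul]
        congr 2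
        group
      exact h4
    refine ⟨M.map e.toLinearMap, ⟨key M hM1 g hg e he, ?_, fun W hW hWi => ?_⟩,
      fun v hv => ⟨v, hv, rfl⟩⟩
    · intro h0
      refine hM2 ((Submodule.eq_bot_iff _).2 fun x hx => ?_)
      have h2 : e x ∈ M.map e.toLinearMap := ⟨x, hx, rfl⟩
      rw [h0, Submodule.mem_bot] at h2
      exact (LinearEquiv.map_eq_zero_iff e).1 h2
    · have h2 : Inv K (W.map e.symm.toLinearMap) := key W hWi g⁻¹ (S.inv_mem hg) e.symm he'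
      have h3 : W.map e.symm.toLinearMap ≤ M := by
        rintro _ ⟨w, hw, rfl⟩
        obtain ⟨m, hm, hmw⟩ := hW hw
        have h4 : e.symm w = m := by
          rw [← hmw]
          exact e.symm_apply_apply m
        have h5 : (e.symm.toLinearMap w) = m := h4
        rw [h5]
        exact hm
      have h6 : W = (W.map e.symm.toLinearMap).map e.toLinearMap := by
        ext w
        constructor
        · intro hw
          exact ⟨e.symm w, ⟨w, hw, rfl⟩, e.apply_symm_apply w⟩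
        · rintro ⟨_, ⟨x, hx, rfl⟩, rfl⟩
          have h7 : e.toLinearMap (e.symm.toLinearMap x) = x := e.apply_symm_apply x
          rw [h7]
          exact hx
      rcases hM3 _ h3 h2 with h7 | h7
      · left
        rw [h6, h7, Submodule.map_bot]
      · right
        rw [h6, h7]
  obtain ⟨C, hC, hc⟩ := hS _ h1
  by_contra hne
  have hC0 : C ≠ ⊥ := by
    rintro rfl
    have h2 := hc.sup_eq_top
    rw [sup_bot_eq] at h2
    exact hne h2
  obtain ⟨M, hMC, hM⟩ := exists_min (K := K) (fun k hk v hv => hC k (hK hk) v hv) hC0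
  refine hM.2.1 (le_bot_iff.1 ?_)
  rw [← hc.inf_eq_bot]
  exact le_inf (le_sSup hM) hMC

end Pool.Agent.H88.PC
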