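import Pool.Agent.H88.PA.Defs

/-!
# `P = W` for products of varieties: definitions
-/

set_option autoImplicit false

open Matrix

namespace Pool.Agent.H88.PC

open Pool.Agent.H88.PW Pool.Agent.H88.PA

/-- The subset of all invertible matrices is closed. -/
theorem closed_top (n : ℕ) : Closed ((⊤ : Subgroup (GL (Fin n) ℂ)) : Set (GL (Fin n) ℂ)) :=
  ⟨∅, fun _ => ⟨fun _ _ h => absurd h (Set.notMem_empty _), fun _ => Subgroup.mem_top _⟩⟩

/-- The only subspaces of `ℂⁿ` which are invariant under `GL_n(ℂ)` are `0` and `ℂⁿ`. -/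
theorem inv_top {n : ℕ} {U : Submodule ℂ (Fin n → ℂ)} (hU : Inv ⊤ U) : U = ⊥ ∨ U = ⊤ := by
  by_cases h0 : U = ⊥
  · exact Or.inl h0
  right
  obtain ⟨u, hu, hu0⟩ := (Submodule.ne_bot_iff U).1 h0
  obtain ⟨i, hi⟩ := Function.ne_iff.1 hu0
  -- every matrix is a linear combination of invertible ones
  have key : ∀ x : Matrix (Fin n) (Fin n) ℂ, x *ᵥ u ∈ U := by
    intro x
    have h1 : (spectrum ℂ (-x)).Finite := by
      have h2 := Module.End.finite_spectrum (Matrix.toLinAlgEquiv' (R := ℂ) (-x))
      rwa [AlgEquiv.spectrum_eq] at h2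
    obtain ⟨c, hc⟩ := h1.infinite_compl.nonempty
    have h2 : IsUnit (algebraMap ℂ (Matrix (Fin n) (Fin n) ℂ) c - -x) := spectrum.notMem_iff.1 hc
    have h3 := hU h2.unit (Subgroup.mem_top _) u hu
    rw [IsUnit.unit_spec, sub_neg_eq_add, Matrix.add_mulVec, Algebra.algebraMap_eq_smul_one,
      Matrix.smul_mulVec, Matrix.one_mulVec] at h3
    have h4 := U.sub_mem h3 (U.smul_mem c hu)
    rwa [add_sub_cancel_left] at h4
  rw [eq_top_iff]
  intro v _
  have h1 := key (Matrix.of fun k j => if j = i then v k * (u i)⁻¹ else 0)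
  have h2 : (Matrix.of fun k j => if j = i then v k * (u i)⁻¹ else 0) *ᵥ u = v := by
    funext k
    simp only [Matrix.mulVec, dotProduct, Matrix.of_apply, ite_mul, zero_mul, Finset.sum_ite_eq',
      Finset.mem_univ, if_true]
    rw [mul_assoc, inv_mul_cancel₀ hi, mul_one]
  rwa [h2] at h1

/-- The group `GL_n`. -/
def gl (n : ℕ) : Red n where
  pts := ⊤
  closed := closed_top n
  semi := by
    intro U hU
    rcases inv_top hU with rfl | rfl
    · exact ⟨⊤, fun _ _ _ _ => Submodule.mem_top, isCompl_bot_top⟩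
    · refine ⟨⊥, fun g _ v hv => ?_, isCompl_top_bot⟩
      rw [Submodule.mem_bot] at *
      rw [hv, Matrix.mulVec_zero]

/-- All elements of `H` commute with all elements of `K`. -/
def Commuting {n : ℕ} (H K : Red n) : Prop := ∀ h ∈ H.pts, ∀ k ∈ K.pts, h * k = k * h

/-- `C` is an iterated tensor product of `A 0, …, A (r-1)` (for `r = 0`: the cohomology of a
point). -/
def IsProd : (r : ℕ) → (Fin r → Bif) → Bif → Prop
  | 0, _, C => C.IsSummand (toric 0)
  | r + 1, A, C => ∃ C' : Bif, IsProd r (fun j => A j.succ) C' ∧ C.IsTensor (A 0) C'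

/-- The moduli spaces of the representations of the fundamental groups of smooth complex projective
varieties, and of the corresponding Higgs bundles, with the products of two varieties. -/
structure Theory extends PA.Theory where
  /-- the product of two varieties -/
  prod : Var → Var → Var
  /-- the fundamental group of a product -/
  split : ∀ X Y, grp (prod X Y) ≃* grp X × grp Y
  /-- a reductive group has only countably many conjugacy classes of pairs of commuting reductive
  subgroups -/
  pairs : ∀ {n : ℕ} (G : Red n), ∃ A B : ℕ → Red n,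
    (∀ i, (A i).pts ≤ G.pts ∧ (B i).pts ≤ G.pts ∧ Commuting (A i) (B i)) ∧
    ∀ H K : Red n, H.pts ≤ G.pts → K.pts ≤ G.pts → Commuting H K → ∃ i, ∃ g ∈ G.pts,
      H.pts.map (MulAut.conj g).toMonoidHom = (A i).pts ∧
        K.pts.map (MulAut.conj g).toMonoidHom = (B i).pts
  /-- for commuting subgroups `A`, `B` of `G` the morphism `M(X, A) × M(Y, B) → M(X × Y, G)` is
  finite, an irreducible variety is not a union of countably many proper closed subsets, and the
  intersection cohomology of the image of a finite morphism is a direct summand of the one of the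
  source -/
  prodDominated : ∀ {X Y : Var} {n : ℕ} {G : Red n} (Z : Comp (prod X Y) G)
    (ι : Type) [Countable ι] (A B : ι → Red n),
    (∀ i, (A i).pts ≤ G.pts ∧ (B i).pts ≤ G.pts ∧ Commuting (A i) (B i)) →
    (∀ ρ, On Z ρ → ∃ i, ∃ g ∈ G.pts,
      (∀ γ, g * ρ ((split X Y).symm (γ, 1)) * g⁻¹ ∈ (A i).pts) ∧
        ∀ δ, g * ρ ((split X Y).symm (1, δ)) * g⁻¹ ∈ (B i).pts) →
    ∃ i, ∃ (Z₁ : Comp X (A i)) (Z₂ : Comp Y (B i)) (C : Bif),
      C.IsTensor (coh Z₁) (coh Z₂) ∧ (coh Z).IsSummand C
  /-- Let `C` be the centralizer of a general representation in the component `Z`, and `D` the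
  centralizer of `C`. Then `Z` is the quotient of a component for `X` and `D` by a finite group `Γ`,
  and the quotient of the product of that component with one for `Y` and `C` by a subgroup of `Γ` is
  a component for `X × Y` and `G` -/
  pullFst : ∀ {X : Var} (Y : Var) {n : ℕ} {G : Red n} (Z : Comp X G),
    ∃ Z' : Comp (prod X Y) G, (coh Z).IsSummand (coh Z')
  pullSnd : ∀ (X : Var) {Y : Var} {n : ℕ} {G : Red n} (Z : Comp Y G),
    ∃ Z' : Comp (prod X Y) G, (coh Z).IsSummand (coh Z')
  /-- if `A` is the group of units of a subalgebra `R ≅ ∏ M_{d j}(ℂ)` of the algebra of matrices, the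
  components for `X` and `A` are the products of those for `X` and `GL_{d j}` -/
  linear : ∀ {X : Var} {n : ℕ} {A : Red n} (R : Subalgebra ℂ (Matrix (Fin n) (Fin n) ℂ)),
    (∀ g : GL (Fin n) ℂ, g ∈ A.pts ↔ (g : Matrix (Fin n) (Fin n) ℂ) ∈ R) →
    ∀ (r : ℕ) (d : Fin r → ℕ), Nonempty (R ≃ₐ[ℂ] ∀ j, Matrix (Fin (d j)) (Fin (d j)) ℂ) →
      ∀ Z : Comp X A, ∃ Z' : ∀ j, Comp X (gl (d j)), IsProd r (fun j => coh (Z' j)) (coh Z)

namespace Theory

variable (T : Theory)

/-- The property `p` holds for all components of the moduli space of `X` and `G`. -/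
def Holds (p : Bif → Prop) (X : T.Var) {n : ℕ} (G : Red n) : Prop := ∀ Z : T.Comp X G, p (T.coh Z)

end Theory

end Pool.Agent.H88.PC
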