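import Pool.Agent.H88.PC.Defs
import Pool.Agent.H88.PC.Cent
import Pool.Agent.H88.PB.Main

/-!
# `P = W` for products of varieties
-/

set_option autoImplicit false

open Matrix

namespace Pool.Agent.H88.PC

open Pool.Agent.H88.PW Pool.Agent.H88.PA Pool.Agent.H88.PB

variable {n : ℕ}

/-- Commuting with a matrix is a closed condition. -/
theorem closed_comm (a : GL (Fin n) ℂ) : Closed {x : GL (Fin n) ℂ | a * x = x * a} := by
  have h1 : {x : GL (Fin n) ℂ | a * x = x * a} =
      ⋂ p : Fin n × Fin n, {x : GL (Fin n) ℂ | ∑ q : Fin n × Fin n,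
        ((if q.2 = p.2 then a p.1 q.1 else 0) - (if q.1 = p.1 then a q.2 p.2 else 0)) *
          x q.1 q.2 = 0} := by
    ext x
    rw [Set.mem_ofPred_eq, Set.mem_iInter]
    have hs : ∀ p : Fin n × Fin n, ∑ q : Fin n × Fin n,
        ((if q.2 = p.2 then a p.1 q.1 else 0) - (if q.1 = p.1 then a q.2 p.2 else 0)) *
          x q.1 q.2 = ((a * x : GL (Fin n) ℂ) : Matrix (Fin n) (Fin n) ℂ) p.1 p.2 -
            ((x * a : GL (Fin n) ℂ) : Matrix (Fin n) (Fin n) ℂ) p.1 p.2 := by
      intro p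
      rw [Units.val_mul, Units.val_mul, Matrix.mul_apply, Matrix.mul_apply,
        Fintype.sum_prod_type]
      simp only [sub_mul, Finset.sum_sub_distrib, ite_mul, zero_mul]
      congr 1
      · refine Finset.sum_congr rfl fun i _ => ?_
        rw [Finset.sum_ite_eq' Finset.univ p.2 fun j => a p.1 i * x i j]
        simp
      · rw [Finset.sum_comm]
        refine Finset.sum_congr rfl fun j _ => ?_
        rw [Finset.sum_ite_eq' Finset.univ p.1 fun i => a j p.2 * x i j]
        simp [mul_comm]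
    simp only [Set.mem_ofPred_eq, hs, sub_eq_zero]
    constructor
    · intro h p
      rw [h]
    · intro h
      exact Units.ext (Matrix.ext fun i j => h (i, j))
  rw [h1]
  refine closed_iInter _ fun p => closed_linear _

theorem closed_centralizer (S : Subgroup (GL (Fin n) ℂ)) :
    Closed ((Subgroup.centralizer (S : Set (GL (Fin n) ℂ)) : Subgroup (GL (Fin n) ℂ)) :
      Set (GL (Fin n) ℂ)) := by
  have h1 : ((Subgroup.centralizer (S : Set (GL (Fin n) ℂ)) : Subgroup (GL (Fin n) ℂ)) :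
      Set (GL (Fin n) ℂ)) = ⋂ s : S, {x | (s : GL (Fin n) ℂ) * x = x * s} := by
    ext x
    rw [SetLike.mem_coe, Subgroup.mem_centralizer_iff, Set.mem_iInter]
    exact ⟨fun h s => h s s.2, fun h s hs => h ⟨s, hs⟩⟩
  rw [h1]
  exact closed_iInter _ fun s => closed_comm _

/-- The centralizer, as a reductive group. -/
def centR (S : Subgroup (GL (Fin n) ℂ)) (hS : Semi S) : Red n where
  pts := Subgroup.centralizer (S : Set (GL (Fin n) ℂ))
  closed := closed_centralizer S
  semi := semi_centralizer hS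

theorem commuting_hull {H K : Subgroup (GL (Fin n) ℂ)} (hH : Semi H) (hK : Semi K)
    (h : ∀ x ∈ H, ∀ y ∈ K, x * y = y * x) : Commuting (hull H hH) (hull K hK) := by
  have h1 : ∀ y ∈ K, ∀ x ∈ (hull H hH).pts, y * x = x * y := fun y hy x hx =>
    zcl_subset (closed_comm y) (fun x hx => (h x hx y hy).symm) hx
  exact fun x hx y hy => zcl_subset (closed_comm x) (fun y hy => (h1 y hy x hx).symm) hy

/-- A group `A` of the form: centralizer in `GL_n` of a reductive group. -/
def Lin (A : Red n) : Prop := ∃ B : Red n, A.pts = Subgroup.centralizer (B.pts : Set (GL (Fin n) ℂ))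

theorem card_le {ι : Type} [Fintype ι] [DecidableEq ι] (E : ι → Matrix (Fin n) (Fin n) ℂ)
    (h0 : ∀ k, E k ≠ 0) (h1 : ∀ k, E k * E k = E k) (h2 : ∀ k l, k ≠ l → E k * E l = 0) :
    Fintype.card ι ≤ n := by
  have h3 : ∀ k, ∃ w, E k *ᵥ w ≠ 0 := by
    intro k
    by_contra hn
    push Not at hn
    refine h0 k ((act (n := n)).injective ?_)
    rw [map_zero]
    exact LinearMap.ext fun v => by rw [act_apply, hn v]; rfl
  choose w hw using h3
  have h4 : LinearIndependent ℂ fun k => E k *ᵥ w k := by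
    rw [linearIndependent_iff']
    intro s c hc k hk
    have h5 := congrArg (fun v => E k *ᵥ v) hc
    simp only [Matrix.mulVec_zero] at h5
    rw [Matrix.mulVec_sum, Finset.sum_eq_single k] at h5
    · rw [Matrix.mulVec_smul, Matrix.mulVec_mulVec, h1] at h5
      exact (smul_eq_zero.1 h5).resolve_right (hw k)
    · intro l _ hl
      rw [Matrix.mulVec_smul, Matrix.mulVec_mulVec, h2 k l (Ne.symm hl), Matrix.zero_mulVec,
        smul_zero]
    · intro h
      exact absurd hk h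
  have h5 := h4.fintype_card_le_finrank
  rwa [Module.finrank_fin_fun] at h5

theorem dim_le (R : Subalgebra ℂ (Matrix (Fin n) (Fin n) ℂ)) {r : ℕ} {d : Fin r → ℕ}
    (e : R ≃ₐ[ℂ] ∀ j, Matrix (Fin (d j)) (Fin (d j)) ℂ) (j : Fin r) : d j ≤ n := by
  let F : Fin (d j) → ∀ j, Matrix (Fin (d j)) (Fin (d j)) ℂ :=
    fun k => Pi.single j (Matrix.single k k 1)
  have hF : ∀ k l, F k * F l = if k = l then F k else 0 := by
    intro k l
    simp only [F]
    rw [← Pi.single_mul]
    split_ifs with h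
    · subst h
      rw [Matrix.single_mul_single_same, mul_one]
    · rw [Matrix.single_mul_single_of_ne _ _ _ _ h, Pi.single_zero]
  have hF0 : ∀ k, F k ≠ 0 := by
    intro k h
    have h1 := congrFun (congrFun (congrFun h j) k) k
    simp only [F, Pi.single_eq_same, Matrix.single_apply_same, Pi.zero_apply,
      Matrix.zero_apply] at h1
    exact one_ne_zero h1
  have h1 := card_le (fun k : Fin (d j) => ((e.symm (F k) : R) : Matrix (Fin n) (Fin n) ℂ))
    (fun k h => hF0 k (by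
      have h2 : e.symm (F k) = 0 := Subtype.ext h
      have h3 := congrArg e h2
      rwa [AlgEquiv.apply_symm_apply, map_zero] at h3))
    (fun k => by
      have h2 : e.symm (F k) * e.symm (F k) = e.symm (F k) := by
        rw [← map_mul, hF, if_pos rfl]
      exact congrArg Subtype.val h2)
    (fun k l hkl => by
      have h2 : e.symm (F k) * e.symm (F l) = 0 := by
        rw [← map_mul, hF, if_neg hkl, map_zero]
      exact congrArg Subtype.val h2)
  rwa [Fintype.card_fin] at h1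

theorem isProd_holds {p : Bif → Prop} (hp : TStable p) : ∀ (r : ℕ) (A : Fin r → Bif) (C : Bif),
    IsProd r A C → (∀ j, p (A j)) → p C
  | 0, _, _, h, _ => hp.summand _ _ h (hp.toric 0)
  | r + 1, _, _, ⟨_, h1, h2⟩, h =>
    hp.tensor _ _ _ h2 (h 0) (isProd_holds hp r _ _ h1 fun j => h j.succ)

variable (T : Theory)

/-- The centralizers are products of groups `GL_m`. -/
theorem holds_lin {p : Bif → Prop} (hp : TStable p) (X : T.Var) (A : Red n) (hA : Lin A)
    (h : ∀ m ≤ n, T.Holds p X (gl m)) : T.Holds p X A := by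
  intro Z
  obtain ⟨B, hB⟩ := hA
  have h1 := cent_semisimple B.semi
  obtain ⟨r, d, -, ⟨e⟩⟩ := IsSemisimpleRing.exists_algEquiv_pi_matrix_of_isAlgClosed ℂ (cent B.pts)
  obtain ⟨Z', hZ'⟩ := T.linear (cent B.pts) (fun g => by rw [hB, mem_cent_iff]) r d ⟨e⟩ Z
  exact isProd_holds hp r _ _ hZ' fun j => h (d j) (dim_le _ e j) (Z' j)

/-- The image of the first factor. -/
def imFst {X Y : T.Var} (ρ : T.grp (T.prod X Y) →* GL (Fin n) ℂ) : Subgroup (GL (Fin n) ℂ) :=
  (ρ.comp ((T.split X Y).symm.toMonoidHom.comp (MonoidHom.inl _ _))).range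

/-- The image of the second factor. -/
def imSnd {X Y : T.Var} (ρ : T.grp (T.prod X Y) →* GL (Fin n) ℂ) : Subgroup (GL (Fin n) ℂ) :=
  (ρ.comp ((T.split X Y).symm.toMonoidHom.comp (MonoidHom.inr _ _))).range

theorem commute_im {X Y : T.Var} (ρ : T.grp (T.prod X Y) →* GL (Fin n) ℂ) :
    ∀ x ∈ imFst T ρ, ∀ y ∈ imSnd T ρ, x * y = y * x := by
  rintro _ ⟨a, rfl⟩ _ ⟨b, rfl⟩
  have h1 : (T.split X Y).symm (a, 1) * (T.split X Y).symm (1, b) =
      (T.split X Y).symm (1, b) * (T.split X Y).symm (a, 1) := by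
    rw [← map_mul, ← map_mul]
    congr 1
    exact Prod.ext (by simp) (by simp)
  have h2 := congrArg ρ h1
  rw [map_mul, map_mul] at h2
  exact h2

theorem semi_im {X Y : T.Var} (ρ : T.grp (T.prod X Y) →* GL (Fin n) ℂ) (h : Semi ρ.range) :
    Semi (imFst T ρ) ∧ Semi (imSnd T ρ) := by
  constructor
  · refine clifford h ?_ ?_
    · rintro _ ⟨a, rfl⟩
      exact ⟨_, rfl⟩
    · rintro _ ⟨s, rfl⟩ _ ⟨a, rfl⟩
      refine ⟨((T.split X Y) s).1 * a * (((T.split X Y) s).1)⁻¹, ?_⟩
      simp only [MonoidHom.comp_apply]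
      rw [← map_inv, ← map_mul, ← map_mul]
      congr 1
      apply (T.split X Y).injective
      have h1 : ∀ x, (T.split X Y) ((T.split X Y).symm.toMonoidHom x) = x :=
        fun x => (T.split X Y).apply_symm_apply x
      simp only [h1, map_mul, map_inv]
      exact Prod.ext (by simp) (by simp)
  · refine clifford h ?_ ?_
    · rintro _ ⟨a, rfl⟩
      exact ⟨_, rfl⟩
    · rintro _ ⟨s, rfl⟩ _ ⟨a, rfl⟩
      refine ⟨((T.split X Y) s).2 * a * (((T.split X Y) s).2)⁻¹, ?_⟩
      simp only [MonoidHom.comp_apply]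
      rw [← map_inv, ← map_mul, ← map_mul]
      congr 1
      apply (T.split X Y).injective
      have h1 : ∀ x, (T.split X Y) ((T.split X Y).symm.toMonoidHom x) = x :=
        fun x => (T.split X Y).apply_symm_apply x
      simp only [h1, map_mul, map_inv]
      exact Prod.ext (by simp) (by simp)

/-- The general step. -/
theorem of_pairs {p : Bif → Prop} (hp : TStable p) (X Y : T.Var) (G : Red n)
    (Q : Red n → Red n → Prop)
    (hQ : ∀ H K : Red n, ∀ g ∈ G.pts, ∀ H' K' : Red n,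
      H.pts.map (MulAut.conj g).toMonoidHom = H'.pts →
        K.pts.map (MulAut.conj g).toMonoidHom = K'.pts → Q H K → Q H' K')
    (h1 : ∀ ρ : T.grp (T.prod X Y) →* GL (Fin n) ℂ, (∀ γ, ρ γ ∈ G.pts) → Semi ρ.range →
      ∃ H K : Red n, H.pts ≤ G.pts ∧ K.pts ≤ G.pts ∧ Commuting H K ∧ Q H K ∧
        imFst T ρ ≤ H.pts ∧ imSnd T ρ ≤ K.pts)
    (h2 : ∀ H K : Red n, H.pts ≤ G.pts → K.pts ≤ G.pts → Q H K → T.Holds p X H ∧ T.Holds p Y K) :
    T.Holds p (T.prod X Y) G := by
  intro Z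
  obtain ⟨A, B, hAB, hc⟩ := T.pairs G
  obtain ⟨i, Z₁, Z₂, C, hC, hZ⟩ := T.prodDominated Z {i : ℕ // Q (A i) (B i)} (fun i => A i)
    (fun i => B i) (fun i => hAB i) (by
      intro ρ hρ
      obtain ⟨h3, h4⟩ := T.semi Z ρ hρ
      obtain ⟨H, K, hH, hK, hHK, hq, hf, hs⟩ := h1 ρ h3 h4
      obtain ⟨i, g, hg, h5, h6⟩ := hc H K hH hK hHK
      refine ⟨⟨i, hQ H K g hg _ _ h5 h6 hq⟩, g, hg, fun γ => ?_, fun δ => ?_⟩
      · rw [← h5]
        exact ⟨_, hf ⟨γ, rfl⟩, rfl⟩
      · rw [← h6]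
        exact ⟨_, hs ⟨δ, rfl⟩, rfl⟩)
  obtain ⟨h3, h4⟩ := h2 _ _ (hAB i).1 (hAB i).2.1 i.2
  exact hp.summand _ _ hZ (hp.tensor _ _ _ hC (h3 Z₁) (h4 Z₂))

/-- **Products and all reductive subgroups of a group.** -/
theorem prod_red {p : Bif → Prop} (hp : TStable p) (X Y : T.Var) (G : Red n)
    (h : ∀ H : Red n, H.pts ≤ G.pts → T.Holds p X H ∧ T.Holds p Y H) :
    T.Holds p (T.prod X Y) G := by
  refine of_pairs T hp X Y G (fun _ _ => True) (fun _ _ _ _ _ _ _ _ _ => trivial) ?_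
    fun H K hH hK _ => ⟨(h H hH).1, (h K hK).2⟩
  intro ρ h3 h4
  obtain ⟨h5, h6⟩ := semi_im T ρ h4
  refine ⟨hull _ h5, hull _ h6, hull_le _ _ _ ?_, hull_le _ _ _ ?_,
    commuting_hull h5 h6 (commute_im T ρ), trivial, le_hull _ _, le_hull _ _⟩
  · rintro _ ⟨γ, rfl⟩
    exact h3 _
  · rintro _ ⟨γ, rfl⟩
    exact h3 _

theorem centralizer_conj {H K : Subgroup (GL (Fin n) ℂ)}
    (h : H = Subgroup.centralizer (K : Set (GL (Fin n) ℂ))) (g : GL (Fin n) ℂ) :
    H.map (MulAut.conj g).toMonoidHom =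
      Subgroup.centralizer (K.map (MulAut.conj g).toMonoidHom : Set (GL (Fin n) ℂ)) := by
  subst h
  ext x
  rw [Subgroup.mem_centralizer_iff]
  constructor
  · rintro ⟨y, hy, rfl⟩ _ ⟨k, hk, rfl⟩
    have h1 := Subgroup.mem_centralizer_iff.1 hy k hk
    rw [← map_mul, ← map_mul, h1]
  · intro hx
    refine ⟨g⁻¹ * x * g, Subgroup.mem_centralizer_iff.2 fun k hk => ?_, ?_⟩
    · have h1 : g * k * g⁻¹ * x = x * (g * k * g⁻¹) := hx _ ⟨k, hk, rfl⟩
      calc k * (g⁻¹ * x * g) = g⁻¹ * (g * k * g⁻¹ * x) * g := by group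
        _ = g⁻¹ * (x * (g * k * g⁻¹)) * g := by rw [h1]
        _ = g⁻¹ * x * g * k := by group
    · show g * (g⁻¹ * x * g) * g⁻¹ = x
      group

theorem triple (S : Subgroup (GL (Fin n) ℂ)) :
    Subgroup.centralizer (S : Set (GL (Fin n) ℂ)) = Subgroup.centralizer
      ((Subgroup.centralizer ((Subgroup.centralizer (S : Set (GL (Fin n) ℂ)) :
        Subgroup (GL (Fin n) ℂ)) : Set (GL (Fin n) ℂ)) : Subgroup (GL (Fin n) ℂ)) :
          Set (GL (Fin n) ℂ)) := by
  refine le_antisymm (fun x hx => Subgroup.mem_centralizer_iff.2 fun y hy => ?_)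
    (fun x hx => Subgroup.mem_centralizer_iff.2 fun y hy => ?_)
  · exact (Subgroup.mem_centralizer_iff.1 hy x hx).symm
  · exact Subgroup.mem_centralizer_iff.1 hx y (Subgroup.mem_centralizer_iff.2 fun z hz =>
      (Subgroup.mem_centralizer_iff.1 hz y hy).symm)

/-- **Products and the groups `GL_m`.** -/
theorem prod_gl {p : Bif → Prop} (hp : TStable p) (X Y : T.Var)
    (h : ∀ m ≤ n, T.Holds p X (gl m) ∧ T.Holds p Y (gl m)) :
    T.Holds p (T.prod X Y) (gl n) := by
  refine of_pairs T hp X Y (gl n) (fun H K =>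
    H.pts = Subgroup.centralizer (K.pts : Set (GL (Fin n) ℂ)) ∧
      K.pts = Subgroup.centralizer (H.pts : Set (GL (Fin n) ℂ))) ?_ ?_
    fun H K _ _ hq => ⟨holds_lin T hp X H ⟨K, hq.1⟩ fun m hm => (h m hm).1,
      holds_lin T hp Y K ⟨H, hq.2⟩ fun m hm => (h m hm).2⟩
  · rintro H K g hg H' K' hH hK ⟨h1, h2⟩
    rw [← hH, ← hK]
    exact ⟨centralizer_conj h1 g, centralizer_conj h2 g⟩
  · intro ρ _ hs
    obtain ⟨h5, h6⟩ := semi_im T ρ hs
    let B : Red n := centR _ h5
    let A : Red n := centR B.pts B.semi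
    refine ⟨A, B, le_top, le_top, ?_, ⟨rfl, triple _⟩, ?_, ?_⟩
    · intro x hx y hy
      exact (Subgroup.mem_centralizer_iff.1 hx y hy).symm
    · intro x hx
      exact Subgroup.mem_centralizer_iff.2 fun y hy =>
        (Subgroup.mem_centralizer_iff.1 hy x hx).symm
    · intro y hy
      exact Subgroup.mem_centralizer_iff.2 fun x hx => commute_im T ρ x hx y hy

end Pool.Agent.H88.PC
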